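import Pool.Agent.Helper70.KN.Goals

/-!
Packet JI of project KN.
-/

open MeasureTheory Set

namespace Pool.Agent.Helper76.KN.JI

open Pool.Agent.Helper70.KN

theorem t (hCL : S_CL) : S_JI := by
  intro N V hconv i p hp hint s hs hq
  apply hint
  obtain ⟨-, hcvx, hup⟩ := hCL N V
  obtain ⟨m, -, hm⟩ := hconv i
  have he : (fun j => ((Pi.single i m : Fin N → ℕ) j : ℝ)) ∈ newton V :=
    ⟨_, subset_convexHull ℝ _ ⟨Pi.single i m, hm, rfl⟩, le_rfl⟩
  set d : ℝ := p i - s with hd
  have hd0 : 0 < d := by rw [hd]; linarith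
  set D : ℝ := |(m : ℝ) - s| with hD
  have hD0 : 0 ≤ D := abs_nonneg _
  have hden : 0 < D + d + 1 := by positivity
  set ε : ℝ := d / (D + d + 1) with hε
  have hε0 : 0 < ε := by positivity
  have hε1 : ε < 1 := by
    rw [hε, div_lt_one hden]
    linarith
  have hεD : ε * D < d := by
    rw [hε, div_mul_eq_mul_div, div_lt_iff₀ hden]
    nlinarith
  set z : Fin N → ℝ := (1 - ε) • Function.update (fun j => (p j : ℝ)) i s +
    ε • (fun j => ((Pi.single i m : Fin N → ℕ) j : ℝ)) with hz
  have hzn : z ∈ newton V := hcvx hq he (by linarith) hε0.le (by ring)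
  have hopen : IsOpen {x : Fin N → ℝ | ∀ j, z j < x j} := by
    have h1 : {x : Fin N → ℝ | ∀ j, z j < x j} = ⋂ j, {x : Fin N → ℝ | z j < x j} := by
      ext x
      simp
    rw [h1]
    exact isOpen_iInter_of_finite fun j => isOpen_lt continuous_const (continuous_apply j)
  have hsub : {x : Fin N → ℝ | ∀ j, z j < x j} ⊆ newton V :=
    fun x hx => hup (fun j => (hx j).le) hzn
  refine interior_maximal hsub hopen ?_
  intro j
  by_cases hj : j = i
  · subst hj
    have h1 : z j = (1 - ε) * s + ε * m := by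
      rw [hz]
      simp
    rw [h1]
    have h2 : ε * ((m : ℝ) - s) ≤ ε * D := mul_le_mul_of_nonneg_left (le_abs_self _) hε0.le
    change (1 - ε) * s + ε * m < (p j : ℝ)
    nlinarith
  · have h1 : z j = (1 - ε) * p j := by
      rw [hz]
      simp [hj]
    rw [h1]
    have h2 : (0 : ℝ) < p j := by exact_mod_cast hp j
    change (1 - ε) * (p j : ℝ) < (p j : ℝ)
    nlinarith

end Pool.Agent.Helper76.KN.JI
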